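import Pool.Agent.P8H47.FP.Stm5

set_option autoImplicit false

namespace Pool.Agent.P8H20.FP

open Pool.Agent.P8H47.FP Pool.Agent.P8H47.EC2
open Pool.Agent.Y920.EP (pwG)

variable {F : Type} [Field F]

/-- units of the ring of finite elements: rational numbers -/
theorem rat_arch (e : OrdEmb F) (b : ℚ) : (b : F) ∈ Arch e := by
  refine ⟨⌈|b|⌉₊, ?_⟩
  rw [map_ratCast]
  have h1 : |(b : e.R)| = ((|b| : ℚ) : e.R) := by rw [Rat.cast_abs]
  have h2 : (|b| : ℚ) ≤ (⌈|b|⌉₊ : ℚ) := Nat.le_ceil _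
  rw [h1]
  calc ((|b| : ℚ) : e.R) ≤ ((⌈|b|⌉₊ : ℚ) : e.R) := by exact_mod_cast h2
    _ = _ := by norm_cast

theorem arch_one_add (e : OrdEmb F) (x : F) (_ : x ∈ Arch e) (hx : x⁻¹ ∉ Arch e) :
    ∃ t ∈ Pos e, (t : F) = 1 + x := by
  have h1 : |e.f x| < 1 := by
    by_contra h
    push Not at h
    apply hx
    refine ⟨1, ?_⟩
    rw [map_inv₀, abs_inv, Nat.cast_one]
    exact inv_le_one_of_one_le₀ h
  have h2 : 0 < e.f (1 + x) := by
    rw [map_add, map_one]
    have := (abs_lt.1 h1).1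
    linarith
  have h3 : (1 : F) + x ≠ 0 := by
    intro h0
    rw [h0, map_zero] at h2
    exact lt_irrefl _ h2
  exact ⟨Units.mk0 _ h3, h2, rfl⟩

theorem pw_pos (e : OrdEmb F) : pwG F 2 ≤ Pos e := by
  rintro _ ⟨c, rfl⟩
  change 0 < e.f (((c ^ 2 : Fˣ)) : F)
  rw [Units.val_pow_eq_pow_val, map_pow]
  have : e.f c ≠ 0 := by rw [Ne, map_eq_zero]; exact c.ne_zero
  positivity

theorem charZ (e : OrdEmb F) : CharZero F := by
  refine ⟨fun a b h => ?_⟩
  have := congrArg e.f h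
  rw [map_natCast, map_natCast] at this
  exact_mod_cast this

theorem c3o : S_C3O := by
  intro hap F _ ι κ _ _ T O J e hS x b hb N
  classical
  have hd := hS.dat
  choose a ha1 ha2 ha3 ha4 using fun i => (hd i).cls (x i)
  have hbF : ∀ j, (b j : F) ≠ 0 := by
    intro j
    have := charZ (e j)
    exact_mod_cast hb j
  let q : ι ⊕ κ → Place F := Sum.elim (fun i => .inl (O i)) (fun j => .inr (e j))
  let n : ι ⊕ κ → Fˣ := Sum.elim a (fun _ => 1)
  let A : ι ⊕ κ → Fˣ := Sum.elim a (fun j => Units.mk0 _ (hbF j))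
  have hU1 : ∀ i (r : ι ⊕ κ), Sum.inl i ≠ r → a i ∈ UU (O i) (Rg (q r)) := by
    intro i r hr
    rcases r with i' | j
    · exact sep (hd i) (hd i').pw (hd i').one_add (hS.ne i i' (fun h => hr (by rw [h]))) (ha2 i) (ha3 i) (ha4 i)
    · exact sep (hd i) (pw_pos (e j)) (arch_one_add (e j)) (hS.neO i j) (ha2 i) (ha3 i) (ha4 i)
  obtain ⟨z, hz⟩ := hap F (ι ⊕ κ) q Finset.univ N n A (by
      rintro (i | j) _
      · exact ⟨ha2 i, ha3 i⟩
      · trivial) (by
      rintro (i | j) _ r _ hr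
      · refine ⟨?_, hU1 i r hr, hU1 i r hr⟩
        rcases r with i' | j <;> trivial
      · refine ⟨?_, one_mem _, ?_⟩
        · rcases r with i' | j'
          · trivial
          · exact hS.sep j j' (fun h => hr (by rw [h]))
        · refine UU_left (rat_arch (e j) (b j)) ?_
          change ((Units.mk0 _ (hbF j))⁻¹ : Fˣ).val ∈ Arch (e j)
          rw [Units.val_inv_eq_inv_val]
          change (b j : F)⁻¹ ∈ Arch (e j)
          have := charZ (e j)
          have := rat_arch (e j) (b j)⁻¹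
          rwa [Rat.cast_inv] at this)
  refine ⟨z, fun i => ?_, fun j => ?_⟩
  · obtain ⟨b', hb', e'⟩ := hz (Sum.inl i) (Finset.mem_univ _)
    change (z : F) = a i * (1 + a i * b') at e'
    obtain ⟨u, hu, hu1, hu2, huT⟩ := one_add_mem (hd i).one_add (ha2 i) (ha3 i) hb'
    have e1 : z = a i * u := by
      apply Units.ext
      rw [e', Units.val_mul, hu]
    have huu : (u : F) * ((u⁻¹ : Fˣ) : F) = 1 := by
      rw [← Units.val_mul, mul_inv_cancel, Units.val_one]
    refine ⟨?_, ?_, ?_, ?_⟩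
    · rw [e1, ← mul_assoc]
      exact mul_mem (ha1 i) huT
    · rw [e1, Units.val_mul]
      exact (O i).mul_mem _ _ (ha2 i) hu1
    · intro h1
      apply ha3 i
      have h2 : (a i : F)⁻¹ = u * (z : F)⁻¹ := by
        rw [e1, Units.val_mul]
        have := (a i).ne_zero
        have := u.ne_zero
        field_simp
      rw [h2]
      exact (O i).mul_mem _ _ hu1 h1
    · intro h1
      apply ha4 i
      have h2 : (a i : F) = z * ((u⁻¹ : Fˣ) : F) := by
        rw [e1, Units.val_mul, mul_assoc, huu, mul_one]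
      rw [h2]
      exact (hd i).pi.mul _ h1 _ hu2
  · have h1 := hz (Sum.inr j) (Finset.mem_univ _)
    change |(e j).f z - (e j).f (b j : F)| * N ≤ |(e j).f (b j : F)| at h1
    rwa [map_ratCast] at h1

theorem c4o : S_C4O := by
  intro h3 h1 F _ ι κ _ _ hne T O J e hS t ht htp x
  classical
  have hd := hS.dat
  obtain ⟨y, hy, hyo⟩ := h3 F ι κ T O J e hS (fun _ => x) (fun j => if 0 < (e j).f x then 1 else -1 / 2)
    (by intro j; split_ifs <;> norm_num) 8
  -- values at the orderings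
  have hyv : ∀ j, (0 < (e j).f x ∧ 7 / 8 ≤ (e j).f y ∧ (e j).f y ≤ 9 / 8) ∨
      ((e j).f x < 0 ∧ -(5 / 8) ≤ (e j).f y ∧ (e j).f y ≤ -(3 / 8)) := by
    intro j
    have h := hyo j
    by_cases hx : 0 < (e j).f x
    · left
      rw [if_pos hx] at h
      push_cast at h
      rw [abs_one] at h
      have h' : |(e j).f y - 1| ≤ 1 / 8 := by linarith
      rw [abs_le] at h'
      exact ⟨hx, by linarith, by linarith⟩
    · right
      rw [if_neg hx] at h
      push_cast at h
      have e0 : |(-1 / 2 : (e j).R)| = 1 / 2 := by rw [abs_of_neg (by norm_num)]; norm_num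
      rw [e0] at h
      have h' : |(e j).f y - (-1 / 2)| ≤ 1 / 8 := by linarith
      rw [abs_le] at h'
      have hx0 : (e j).f x ≠ 0 := by rw [Ne, map_eq_zero]; exact x.ne_zero
      exact ⟨lt_of_le_of_ne (not_lt.1 hx) hx0, by linarith, by linarith⟩
  have hone : ∀ i, ∃ v' : Fˣ, (v' : F) = 1 + y ∧ v' ∈ T i := by
    intro i
    obtain ⟨v', hv', -, -, hv''⟩ := one_add_mem (hd i).one_add (hy i).2.1 (hy i).2.2.1 (O i).one_mem
    rw [mul_one] at hv'
    exact ⟨v', hv', hv''⟩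
  have hvp : ∀ j, 3 / 8 ≤ (e j).f (1 + (y : F)) ∧ (e j).f (1 + (y : F)) ≤ 17 / 8 := by
    intro j
    rw [map_add, map_one]
    rcases hyv j with ⟨-, a, b⟩ | ⟨-, a, b⟩ <;> constructor <;> linarith
  have hv0 : (1 : F) + y ≠ 0 := by
    obtain ⟨i | j⟩ := hne
    · obtain ⟨v', hv', -⟩ := hone i
      rw [← hv']; exact v'.ne_zero
    · intro h0
      have := (hvp j).1
      rw [h0, map_zero] at this
      linarith
  let v : Fˣ := Units.mk0 _ hv0
  have hv : (v : F) = 1 + y := rfl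
  have hvT : ∀ i, v ∈ T i := by
    intro i
    obtain ⟨v', hv', hv''⟩ := hone i
    rwa [Units.ext (hv.trans hv'.symm)]
  obtain ⟨c, hc, hco⟩ := h1 F ι κ T O J e hS y (fun i => (hy i).2) (t * v⁻¹)
    (fun i => mul_mem (ht i) (inv_mem (hvT i))) (fun j => by
      have h5 : 0 < (e j).f (v : F) := by have := (hvp j).1; rw [hv]; linarith
      rw [Units.val_mul, Units.val_inv_eq_inv_val, map_mul, map_inv₀]
      exact mul_pos (htp j) (inv_pos.2 h5)) 100
  have e1 : (t : F) * c ^ 2 = ((t * v⁻¹ * c ^ 2 : Fˣ) : F) * v := by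
    rw [Units.val_mul, Units.val_mul, Units.val_pow_eq_pow_val, Units.val_inv_eq_inv_val]
    have := v.ne_zero
    field_simp
  set η : F := ((t * v⁻¹ * c ^ 2 : Fˣ) : F) - 1 with hη
  have e2 : (t : F) * c ^ 2 - 1 = y + v * η := by
    rw [e1, hη, hv]; ring
  -- at the valuation rings
  have hat : ∀ i, ∃ u : Fˣ, (y : F) + v * η = y * u ∧ u ∈ T i := by
    intro i
    obtain ⟨b, hb, e'⟩ := hc i
    have hη' : η = y * y * b := by rw [hη, e']; ring
    obtain ⟨u, hu, -, -, hu'⟩ := one_add_mem (hd i).one_add (hy i).2.1 (hy i).2.2.1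
      ((O i).mul_mem _ _ hb (show (v : F) ∈ O i by
        rw [hv]; exact (O i).add_mem _ _ (O i).one_mem (hy i).2.1))
    exact ⟨u, by rw [hu, hη']; ring, hu'⟩
  -- at the orderings
  have hao : ∀ j, (0 < (e j).f x ∧ 0 < (e j).f ((y : F) + v * η)) ∨
      ((e j).f x < 0 ∧ (e j).f ((y : F) + v * η) < 0) := by
    intro j
    have h5 := hco j
    have h6 : (e j).f η = (e j).f ((t * v⁻¹ * c ^ 2 : Fˣ) : F) - 1 := by rw [hη, map_sub, map_one]
    rw [← h6] at h5
    have h7 : |(e j).f η| ≤ 1 / 100 := by push_cast at h5; linarith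
    have h8 := hvp j
    rw [← hv] at h8
    have h9 : |(e j).f ((v : F) * η)| ≤ 17 / 800 := by
      rw [map_mul, abs_mul, abs_of_pos (show 0 < (e j).f (v : F) by linarith [h8.1])]
      calc (e j).f (v : F) * |(e j).f η| ≤ 17 / 8 * (1 / 100) :=
            mul_le_mul h8.2 h7 (abs_nonneg _) (by norm_num)
        _ = _ := by norm_num
    rw [abs_le] at h9
    rw [map_add]
    rcases hyv j with ⟨a, b, c'⟩ | ⟨a, b, c'⟩
    · left; exact ⟨a, by linarith [h9.1]⟩
    · right; exact ⟨a, by linarith [h9.2]⟩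
  have hz0 : (y : F) + v * η ≠ 0 := by
    obtain ⟨i | j⟩ := hne
    · obtain ⟨u, hu, -⟩ := hat i
      rw [hu]
      exact mul_ne_zero y.ne_zero u.ne_zero
    · intro h0
      rcases hao j with ⟨-, h⟩ | ⟨-, h⟩ <;> rw [h0, map_zero] at h <;> exact lt_irrefl _ h
  refine ⟨Units.mk0 _ hz0, c, fun i => ?_, fun j => ?_, ?_⟩
  · obtain ⟨u, hu, huT⟩ := hat i
    have e3 : Units.mk0 _ hz0 = y * u := by
      apply Units.ext
      rw [Units.val_mul, ← hu]; rfl
    rw [e3, ← mul_assoc]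
    exact mul_mem (hy i).1 huT
  · rw [Units.val_mul, Units.val_inv_eq_inv_val, map_mul, map_inv₀]
    change 0 < ((e j).f (x : F))⁻¹ * (e j).f ((y : F) + v * η)
    rcases hao j with ⟨a, b⟩ | ⟨a, b⟩
    · exact mul_pos (inv_pos.2 a) b
    · exact mul_pos_of_neg_of_neg (inv_lt_zero.2 a) b
  · change (1 : F) + ((y : F) + v * η) = t * c ^ 2
    rw [← e2]; ring

end Pool.Agent.P8H20.FP
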