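import Pool.Agent.P8H47.FP.Stm5
import Pool.Agent.P8H55.EC2.Ap

set_option autoImplicit false

namespace Pool.Agent.P8H20.FP

open Pool.Agent.P8H47.FP Pool.Agent.P8H55.EC2

variable {F : Type} [Field F]

lemma wO (O : ValuationSubring F) (g : F) (hg : g ≠ 0) : ∃ N : ℕ, ∀ n, N ≤ n → n.Prime →
    (∑ i ∈ Finset.range n, g ^ i)⁻¹ ∈ O ∧
    (g ∈ O → ∃ b ∈ O, (∑ i ∈ Finset.range n, g ^ i)⁻¹ - 1 = g * b) ∧
    (g⁻¹ ∈ O → ∃ b ∈ O, (∑ i ∈ Finset.range n, g ^ i)⁻¹ = g⁻¹ * b) := by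
  have h1 : ∃ N : ℕ, ∀ n, N ≤ n → n.Prime →
      (g ∈ O → ∑ i ∈ Finset.range n, g ^ i ≠ 0 ∧ (∑ i ∈ Finset.range n, g ^ i)⁻¹ ∈ O) ∧
      (g⁻¹ ∈ O → ∑ i ∈ Finset.range n, g⁻¹ ^ i ≠ 0 ∧ (∑ i ∈ Finset.range n, g⁻¹ ^ i)⁻¹ ∈ O) := by
    have ha : ∃ N : ℕ, ∀ n, N ≤ n → n.Prime →
      (g ∈ O → ∑ i ∈ Finset.range n, g ^ i ≠ 0 ∧ (∑ i ∈ Finset.range n, g ^ i)⁻¹ ∈ O) := by
      by_cases h : g ∈ O
      · obtain ⟨N, hN⟩ := unitP O g h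
        exact ⟨N, fun n hn hp _ => hN n hn hp⟩
      · exact ⟨0, fun n _ _ h' => absurd h' h⟩
    have hb : ∃ N : ℕ, ∀ n, N ≤ n → n.Prime →
      (g⁻¹ ∈ O → ∑ i ∈ Finset.range n, g⁻¹ ^ i ≠ 0 ∧ (∑ i ∈ Finset.range n, g⁻¹ ^ i)⁻¹ ∈ O) := by
      by_cases h : g⁻¹ ∈ O
      · obtain ⟨N, hN⟩ := unitP O g⁻¹ h
        exact ⟨N, fun n hn hp _ => hN n hn hp⟩
      · exact ⟨0, fun n _ _ h' => absurd h' h⟩
    obtain ⟨N, hN⟩ := ha
    obtain ⟨M, hM⟩ := hb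
    exact ⟨max N M, fun n hn hp => ⟨hN n (le_trans (le_max_left _ _) hn) hp,
      hM n (le_trans (le_max_right _ _) hn) hp⟩⟩
  obtain ⟨N, hN⟩ := h1
  refine ⟨N, fun n hn hp => ?_⟩
  obtain ⟨k, rfl⟩ : ∃ k, n = k + 2 := ⟨n - 2, by have := hp.two_le; omega⟩
  obtain ⟨hA, hB⟩ := hN (k + 2) hn hp
  have hinv : g⁻¹ ∈ O → ∃ b ∈ O, (∑ i ∈ Finset.range (k + 2), g ^ i)⁻¹ = g⁻¹ * b := fun h => by
    obtain ⟨h3, h4⟩ := hB h
    refine ⟨g⁻¹ ^ k * (∑ i ∈ Finset.range (k + 2), g⁻¹ ^ i)⁻¹, O.mul_mem _ _ (pow_mem h k) h4, ?_⟩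
    rw [refl g hg (k + 1), mul_inv, ← inv_pow, pow_succ]
    ring
  refine ⟨?_, fun h => ?_, hinv⟩
  · rcases O.mem_or_inv_mem g with h | h
    · exact (hA h).2
    · obtain ⟨b, hb, e⟩ := hinv h
      rw [e]
      exact O.mul_mem _ _ h hb
  · obtain ⟨h3, h4⟩ := hA h
    refine ⟨-((∑ i ∈ Finset.range (k + 2), g ^ i)⁻¹ * ∑ i ∈ Finset.range (k + 1), g ^ i),
      O.neg_mem _ (O.mul_mem _ _ h4 (sum_mem fun i _ => pow_mem h i)), ?_⟩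
    have h5 : ∑ i ∈ Finset.range (k + 2), g ^ i = g * (∑ i ∈ Finset.range (k + 1), g ^ i) + 1 :=
      geom_sum_succ
    have h6 : (∑ i ∈ Finset.range (k + 2), g ^ i)⁻¹ * (∑ i ∈ Finset.range (k + 2), g ^ i) = 1 :=
      inv_mul_cancel₀ h3
    set w := (∑ i ∈ Finset.range (k + 2), g ^ i)⁻¹
    rw [h5] at h6
    linear_combination h6

theorem eo : S_EO := by
  intro F _ ι q s g
  classical
  have hg0 : (g : F) ^ 2 ≠ 0 := pow_ne_zero 2 g.ne_zero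
  have hloc : ∀ i, ∃ N : ℕ, ∀ n, N ≤ n → n.Prime → ∀ O, q i = .inl O →
      (∑ j ∈ Finset.range n, ((g : F) ^ 2) ^ j)⁻¹ ∈ O ∧
      ((g : F) ^ 2 ∈ O → ∃ b ∈ O, (∑ j ∈ Finset.range n, ((g : F) ^ 2) ^ j)⁻¹ - 1 = (g : F) ^ 2 * b) ∧
      (((g : F) ^ 2)⁻¹ ∈ O → ∃ b ∈ O, (∑ j ∈ Finset.range n, ((g : F) ^ 2) ^ j)⁻¹ = ((g : F) ^ 2)⁻¹ * b) := by
    intro i
    rcases hq : q i with O | e
    · obtain ⟨N, hN⟩ := wO O ((g : F) ^ 2) hg0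
      refine ⟨N, fun n hn hp O' hO' => ?_⟩
      obtain rfl : O = O' := Sum.inl_injective hO'
      exact hN n hn hp
    · exact ⟨0, fun n _ _ O' hO' => by simp at hO'⟩
  choose N hN using hloc
  obtain ⟨N0, hN0⟩ := unitP (⊤ : ValuationSubring F) ((g : F) ^ 2) (ValuationSubring.mem_top _)
  obtain ⟨n, hn, hp⟩ := Nat.exists_infinite_primes (max (s.sup N) N0)
  have hS := (hN0 n (le_trans (le_max_right _ _) hn) hp).1
  refine ⟨(∑ j ∈ Finset.range n, ((g : F) ^ 2) ^ j)⁻¹, inv_ne_zero hS, ?_, ?_⟩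
  · intro i hi O hO
    obtain ⟨a1, a2, a3⟩ := hN i n (le_trans (le_trans (Finset.le_sup hi) (le_max_left _ _)) hn) hp O hO
    refine ⟨a1, fun h => ?_, fun h => ?_⟩
    · obtain ⟨b, hb, e⟩ := a2 (pow_mem h 2)
      exact ⟨g * b, O.mul_mem _ _ h hb, by rw [e]; ring⟩
    · obtain ⟨b, hb, e⟩ := a3 (by rw [← inv_pow]; exact pow_mem h 2)
      exact ⟨(g : F)⁻¹ * b, O.mul_mem _ _ h hb, by rw [e, ← inv_pow]; ring⟩
  · intro i hi e he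
    obtain ⟨k, rfl⟩ : ∃ k, n = k + 2 := ⟨n - 2, by have := hp.two_le; omega⟩
    set G := e.f g ^ 2 with hG
    have hgne : e.f g ≠ 0 := by rw [Ne, map_eq_zero]; exact g.ne_zero
    have hGpos : 0 < G := by positivity
    have hes : e.f (∑ j ∈ Finset.range (k + 2), ((g : F) ^ 2) ^ j) = ∑ j ∈ Finset.range (k + 2), G ^ j := by
      rw [map_sum]
      refine Finset.sum_congr rfl fun j _ => ?_
      rw [map_pow, map_pow]
    rw [map_inv₀, hes]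
    set T := ∑ j ∈ Finset.range (k + 1), G ^ j with hT
    have hT1 : 1 ≤ T := by
      rw [hT, Finset.sum_range_succ']
      have : 0 ≤ ∑ j ∈ Finset.range k, G ^ (j + 1) := Finset.sum_nonneg fun j _ => by positivity
      simpa using this
    have h5 : ∑ j ∈ Finset.range (k + 2), G ^ j = G * T + 1 := geom_sum_succ
    have h6 : ∑ j ∈ Finset.range (k + 2), G ^ j = T + G ^ (k + 1) := Finset.sum_range_succ _ _
    have hGk : 0 < G ^ (k + 1) := by positivity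
    set S := ∑ j ∈ Finset.range (k + 2), G ^ j with hSd
    have hS1 : 1 + G ≤ S := by
      rw [h5]
      nlinarith
    have hSpos : 0 < S := by linarith
    refine ⟨inv_pos.2 hSpos, inv_le_one_of_one_le₀ (by linarith), ?_, ?_⟩
    · rw [inv_mul_le_iff₀ hSpos]; linarith
    · have : S * S⁻¹ = 1 := mul_inv_cancel₀ hSpos.ne'
      have h7 : S - 1 ≤ G * S := by rw [h5]; nlinarith
      have h8 := mul_le_mul_of_nonneg_right h7 (inv_pos.2 hSpos).le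
      have h9 : (S - 1) * S⁻¹ = 1 - S⁻¹ := by rw [sub_mul, this, one_mul]
      have h10 : G * S * S⁻¹ = G := by rw [mul_assoc, this, mul_one]
      linarith

end Pool.Agent.P8H20.FP
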