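import Pool.Agent.P8H47.FP.Stm5

set_option autoImplicit false

namespace Pool.Agent.P8H20.FP

open Pool.Agent.P8H47.FP

theorem ordr : S_ORDR := by
  intro F _ P hP
  classical
  have hneg : ∀ a ∈ P, ∀ b ∈ P, (a : F) ≠ -(b : F) := by
    intro a ha b hb h
    apply hP.neg
    have : (-1 : Fˣ) = a * b⁻¹ := by
      apply Units.ext
      push_cast
      rw [h, neg_mul, mul_inv_cancel₀ b.ne_zero]
    rw [this]
    exact P.mul_mem ha (P.inv_mem hb)
  let C : RingCone F :=
    { carrier := {x | x = 0 ∨ ∃ u ∈ P, (u : F) = x}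
      mul_mem' := by
        rintro a b (rfl | ⟨u, hu, rfl⟩) hb
        · left; rw [zero_mul]
        · rcases hb with rfl | ⟨v, hv, rfl⟩
          · left; rw [mul_zero]
          · right
            exact ⟨u * v, P.mul_mem hu hv, by push_cast; rfl⟩
      one_mem' := Or.inr ⟨1, P.one_mem, rfl⟩
      add_mem' := by
        rintro a b (rfl | ⟨u, hu, rfl⟩) hb
        · rw [zero_add]; exact hb
        · rcases hb with rfl | ⟨v, hv, rfl⟩
          · rw [add_zero]; exact Or.inr ⟨u, hu, rfl⟩
          · right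
            obtain ⟨z, hz, e⟩ := hP.add u hu v hv
            exact ⟨z, hz, e⟩
      zero_mem' := Or.inl rfl
      eq_zero_of_mem_of_neg_mem' := by
        rintro a (rfl | ⟨u, hu, rfl⟩) hb
        · rfl
        · rcases hb with h | ⟨v, hv, h⟩
          · exact absurd (neg_eq_zero.1 h) u.ne_zero
          · exact absurd h (hneg v hv u hu) }
  have hC : ∀ x : F, x ∈ C ↔ x = 0 ∨ ∃ u ∈ P, (u : F) = x := fun x => Iff.rfl
  haveI hmem : HasMemOrNegMem C := by
    refine ⟨fun a => ?_⟩
    by_cases h0 : a = 0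
    · left; exact Or.inl h0
    · rcases hP.tot (Units.mk0 a h0) with h | h
      · left; exact Or.inr ⟨_, h, rfl⟩
      · right; exact Or.inr ⟨_, h, by push_cast; rfl⟩
  letI L : LinearOrder F := LinearOrder.mkOfAddGroupCone C
  haveI O : IsOrderedRing F := IsOrderedRing.mkOfCone C
  haveI S : IsStrictOrderedRing F := IsOrderedRing.toIsStrictOrderedRing F
  refine ⟨⟨F, RingHom.id F⟩, ?_⟩
  ext x
  have hle : (0 : F) ≤ x ↔ (x : F) - 0 ∈ C := Iff.rfl
  change (0 : F) < (x : F) ↔ x ∈ P
  constructor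
  · intro h
    have := (hC _).1 (hle.1 h.le)
    rw [sub_zero] at this
    rcases this with h0 | ⟨u, hu, e⟩
    · exact absurd h0 x.ne_zero
    · rwa [← Units.ext e]
  · intro h
    have h1 : (0 : F) ≤ x := by
      rw [hle, sub_zero]
      exact Or.inr ⟨x, h, rfl⟩
    exact lt_of_le_of_ne h1 (Ne.symm x.ne_zero)

end Pool.Agent.P8H20.FP
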