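import Pool.Agent.P8H47.FP.Stm5
import Pool.Agent.P8H56.FP.Inf

set_option autoImplicit false

namespace Pool.Agent.P8H20.FP

open Pool.Agent.P8H47.FP Pool.Agent.P8H56.FP

theorem mem_Fx_zp {F K : Type} [Field F] [Field K] [Algebra F K] (τ : K ≃ₐ[F] K) (y : K) :
    y ∈ Fx (Subgroup.zpowers τ) ↔ τ y = y := by
  constructor
  · intro h
    exact h ⟨τ, Subgroup.mem_zpowers τ⟩
  · rintro h ⟨g, k, rfl⟩
    have hs : τ ∈ MulAction.stabilizer (K ≃ₐ[F] K) y := h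
    exact (MulAction.stabilizer (K ≃ₐ[F] K) y).zpow_mem hs k

theorem ordz : S_ORDZ := by
  intro F K _ _ _ h2 hsq τ hτ hτ1
  obtain ⟨i, hi⟩ := hsq (-1)
  have hτi : τ i = -i := invol h2 hsq hi τ (by rw [pow_two]; exact hτ) hτ1
  have hττ : ∀ y, τ (τ y) = y := by
    intro y
    have h3 : (τ * τ) y = (1 : K ≃ₐ[F] K) y := by rw [hτ]
    exact h3
  have hi0 : i ≠ 0 := by
    rintro rfl
    rw [zero_pow (by norm_num)] at hi
    have : (1 : K) = 0 := by linear_combination hi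
    exact one_ne_zero this
  have sq' : ∀ y ∈ Fx (Subgroup.zpowers τ), y ≠ 0 →
      (∃ w ∈ Fx (Subgroup.zpowers τ), y = w ^ 2) ∨ ∃ w ∈ Fx (Subgroup.zpowers τ), y = - w ^ 2 := by
    intro y hy hy0
    rw [mem_Fx_zp] at hy
    obtain ⟨z, hz⟩ := hsq y
    have h4 : (τ z) ^ 2 = z ^ 2 := by rw [← map_pow, hz, hy]
    rcases sq_eq_sq_iff_eq_or_eq_neg.1 h4 with h6 | h6
    · left; exact ⟨z, (mem_Fx_zp τ z).2 h6, hz.symm⟩
    · right
      refine ⟨z * i, (mem_Fx_zp τ _).2 ?_, ?_⟩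
      · rw [map_mul, h6, hτi]; ring
      · rw [mul_pow, hi, hz]; ring
  have sum' : ∀ u ∈ Fx (Subgroup.zpowers τ), ∀ v ∈ Fx (Subgroup.zpowers τ),
      ∃ w ∈ Fx (Subgroup.zpowers τ), u ^ 2 + v ^ 2 = w ^ 2 := by
    intro u hu v hv
    rw [mem_Fx_zp] at hu hv
    obtain ⟨l, hl⟩ := hsq (u + v * i)
    refine ⟨l * τ l, (mem_Fx_zp τ _).2 ?_, ?_⟩
    · rw [map_mul, hττ, mul_comm]
    · have h5 : (τ l) ^ 2 = u - v * i := by
        rw [← map_pow, hl, map_add, map_mul, hu, hv, hτi]; ring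
      rw [mul_pow, hl, h5]
      linear_combination (v ^ 2) * hi
  have neg' : ¬ ∃ w ∈ Fx (Subgroup.zpowers τ), w ^ 2 = -1 := by
    rintro ⟨w, hw, hw2⟩
    rw [mem_Fx_zp] at hw
    rw [← hi] at hw2
    rcases sq_eq_sq_iff_eq_or_eq_neg.1 hw2 with h | h
    · rw [h, hτi] at hw
      exact neg_ne h2 hi0 hw
    · rw [h, map_neg, hτi, neg_neg] at hw
      exact neg_ne h2 hi0 hw.symm
  have alg : ∀ x : F, algebraMap F K x ∈ Fx (Subgroup.zpowers τ) := by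
    intro x
    rw [mem_Fx_zp, AlgEquiv.commutes]
  have hinj : Function.Injective (algebraMap F K) := (algebraMap F K).injective
  let P : Subgroup Fˣ :=
    { carrier := {x | ∃ y ∈ Fx (Subgroup.zpowers τ), y ^ 2 = algebraMap F K x}
      mul_mem' := by
        rintro a b ⟨y, hy, e⟩ ⟨z, hz, e'⟩
        exact ⟨y * z, (Fx (Subgroup.zpowers τ)).mul_mem hy hz, by rw [mul_pow, e, e', ← map_mul]; push_cast; rfl⟩
      one_mem' := ⟨1, (Fx (Subgroup.zpowers τ)).one_mem, by simp⟩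
      inv_mem' := by
        rintro a ⟨y, hy, e⟩
        exact ⟨y⁻¹, (Fx (Subgroup.zpowers τ)).inv_mem hy, by rw [inv_pow, e, ← map_inv₀]; push_cast; rfl⟩ }
  have hPm : ∀ x : Fˣ, x ∈ P ↔ ∃ y ∈ Fx (Subgroup.zpowers τ), y ^ 2 = algebraMap F K x := fun x => Iff.rfl
  refine ⟨P, ⟨?_, ?_, ?_⟩, ⟨hτ, hτ1, hPm, sq', sum', neg'⟩⟩
  · intro x hx y hy
    obtain ⟨a, ha, ea⟩ := (hPm x).1 hx
    obtain ⟨b, hb, eb⟩ := (hPm y).1 hy
    obtain ⟨w, hw, ew⟩ := sum' a ha b hb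
    have hb0 : b ≠ 0 := by
      rintro rfl
      rw [zero_pow (by norm_num)] at eb
      exact y.ne_zero (hinj (by rw [map_zero]; exact eb.symm))
    have hne : (x : F) + y ≠ 0 := by
      intro h0
      have h1 : a ^ 2 + b ^ 2 = 0 := by rw [ea, eb, ← map_add, h0, map_zero]
      apply neg'
      refine ⟨a * b⁻¹, (Fx (Subgroup.zpowers τ)).mul_mem ha ((Fx (Subgroup.zpowers τ)).inv_mem hb), ?_⟩
      have : a ^ 2 = -b ^ 2 := by linear_combination h1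
      rw [mul_pow, this, inv_pow]
      field_simp
    refine ⟨Units.mk0 _ hne, (hPm _).2 ⟨w, hw, ?_⟩, rfl⟩
    rw [← ew, ea, eb, ← map_add]
    rfl
  · intro h
    obtain ⟨y, hy, e⟩ := (hPm _).1 h
    exact neg' ⟨y, hy, by rw [e]; simp⟩
  · intro x
    rcases sq' (algebraMap F K x) (alg x) (by rw [Ne, map_eq_zero_iff _ hinj]; exact x.ne_zero) with ⟨w, hw, e⟩ | ⟨w, hw, e⟩
    · left; exact (hPm x).2 ⟨w, hw, e.symm⟩
    · right; exact (hPm (-x)).2 ⟨w, hw, by rw [Units.val_neg, map_neg, e]; ring⟩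

end Pool.Agent.P8H20.FP
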