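import Pool.Agent.P8H47.FP.Stm

/-!
Package QA of project FP.
-/

set_option autoImplicit false

namespace Pool.Agent.P8H20.FP

open Pool.Agent.P8H47.FP

variable {K : Type} [Field K]

/-- values of a binary form -/
theorem rep_to {E : Subfield K} {a y₀ y₁ t : K} (hy₀ : y₀ ∈ E) (hy₁ : y₁ ∈ E)
    (h : ∃ u₀ ∈ E, ∃ u₁ ∈ E, R a y₀ y₁ u₀ u₁ = t) : Nm E (y₀ ^ 2 - a * y₁ ^ 2) (y₁ * t) := by
  obtain ⟨u₀, hu₀, u₁, hu₁, rfl⟩ := h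
  refine ⟨y₁ * u₀ + y₀ * u₁, E.add_mem (E.mul_mem hy₁ hu₀) (E.mul_mem hy₀ hu₁), u₁, hu₁, ?_⟩
  unfold R
  ring

theorem rep_from {E : Subfield K} {a y₀ y₁ t : K} (hy₀ : y₀ ∈ E) (hy₁ : y₁ ∈ E) (hne : y₁ ≠ 0)
    (h : Nm E (y₀ ^ 2 - a * y₁ ^ 2) (y₁ * t)) : ∃ u₀ ∈ E, ∃ u₁ ∈ E, R a y₀ y₁ u₀ u₁ = t := by
  obtain ⟨u, hu, v, hv, huv⟩ := h
  refine ⟨(u - y₀ * v) / y₁, E.div_mem (E.sub_mem hu (E.mul_mem hy₀ hv)) hy₁, v, hv, ?_⟩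
  have h1 : y₁ * R a y₀ y₁ ((u - y₀ * v) / y₁) v = y₁ * t := by
    rw [huv]
    unfold R
    field_simp
    ring
  exact mul_left_cancel₀ hne h1

theorem nm_sq {E : Subfield K} {x z : K} (h2 : (2 : K) ≠ 0) (hz : z ∈ E) (hx : ∃ w ∈ E, w ≠ 0 ∧ x = w ^ 2) :
    Nm E x z := by
  obtain ⟨w, hw, hw0, rfl⟩ := hx
  have h2E : (2 : K) ∈ E := by
    have := E.add_mem E.one_mem E.one_mem
    rwa [one_add_one_eq_two] at this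
  refine ⟨(z + 1) / 2, E.div_mem (E.add_mem hz E.one_mem) h2E, (z - 1) / (2 * w),
    E.div_mem (E.sub_mem hz E.one_mem) (E.mul_mem h2E hw), ?_⟩
  field_simp
  ring

/-- if the form is isotropic then the determinant is a square -/
theorem iso_sq {E : Subfield K} {a y₀ y₁ u₀ u₁ : K} (hy₀ : y₀ ∈ E) (hy₁ : y₁ ∈ E) (hne : y₁ ≠ 0)
    (hu₀ : u₀ ∈ E) (hu₁ : u₁ ∈ E) (hN : y₀ ^ 2 - a * y₁ ^ 2 ≠ 0) (h0 : ¬ (u₀ = 0 ∧ u₁ = 0))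
    (h : R a y₀ y₁ u₀ u₁ = 0) : ∃ w ∈ E, w ≠ 0 ∧ y₀ ^ 2 - a * y₁ ^ 2 = w ^ 2 := by
  have h1 : (y₁ * u₀ + y₀ * u₁) ^ 2 = (y₀ ^ 2 - a * y₁ ^ 2) * u₁ ^ 2 := by
    have : y₁ * R a y₀ y₁ u₀ u₁ = 0 := by rw [h, mul_zero]
    unfold R at this
    linear_combination this
  have hu1 : u₁ ≠ 0 := by
    intro hu
    apply h0
    rw [hu] at h1
    have h3 : (y₁ * u₀) ^ 2 = 0 := by
      calc (y₁ * u₀) ^ 2 = (y₁ * u₀ + y₀ * 0) ^ 2 := by ring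
        _ = 0 := by rw [h1]; ring
    have h4 := pow_eq_zero_iff (two_ne_zero) |>.1 h3
    rcases mul_eq_zero.1 h4 with h5 | h5
    · exact absurd h5 hne
    · exact ⟨h5, hu⟩
  have h5 : y₀ ^ 2 - a * y₁ ^ 2 = ((y₁ * u₀ + y₀ * u₁) / u₁) ^ 2 := by
    rw [div_pow, h1]
    field_simp
  refine ⟨(y₁ * u₀ + y₀ * u₁) / u₁, E.div_mem (E.add_mem (E.mul_mem hy₁ hu₀) (E.mul_mem hy₀ hu₁)) hu₁,
    ?_, h5⟩
  intro h6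
  rw [h6] at h5
  apply hN
  rw [h5]
  ring

theorem nm_mul_sq {E : Subfield K} {x z w : K} (hw : w ∈ E) (h : Nm E x z) : Nm E x (z * w ^ 2) := by
  obtain ⟨u, hu, v, hv, rfl⟩ := h
  exact ⟨u * w, E.mul_mem hu hw, v * w, E.mul_mem hv hw, by ring⟩

theorem qa : S_QA := by
  intro K _ h2 ι M E hLG a ha y₀ hy₀ y₁ hy₁ c₀ hc₀ c₁ hc₁ hNy hNc hloc
  by_cases hy : y₁ = 0
  · refine ⟨1, M.one_mem, 0, M.zero_mem, 0, M.zero_mem, 0, M.zero_mem, ?_, ?_⟩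
    · rintro ⟨h, _⟩
      exact one_ne_zero h
    · unfold R
      rw [hy]
      ring
  by_cases hc : c₁ = 0
  · refine ⟨0, M.zero_mem, 0, M.zero_mem, 1, M.one_mem, 0, M.zero_mem, ?_, ?_⟩
    · rintro ⟨_, _, h, _⟩
      exact one_ne_zero h
    · unfold R
      rw [hc]
      ring
  have key : ∀ i, ∃ t ∈ E i, t ≠ 0 ∧ Nm (E i) (y₀ ^ 2 - a * y₁ ^ 2) (y₁ * t) ∧
      Nm (E i) (c₀ ^ 2 - a * c₁ ^ 2) (c₁ * t) := by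
    intro i
    have hle := hLG.le i
    obtain ⟨u₀, hu₀, u₁, hu₁, v₀, hv₀, v₁, hv₁, hne, heq⟩ := hloc i
    by_cases ht : R a y₀ y₁ u₀ u₁ = 0
    · by_cases hu : u₀ = 0 ∧ u₁ = 0
      · -- the second form is isotropic
        have hv : ¬ (v₀ = 0 ∧ v₁ = 0) := fun hv => hne ⟨hu.1, hu.2, hv.1, hv.2⟩
        obtain hsq := iso_sq (hle hc₀) (hle hc₁) hc hv₀ hv₁ hNc hv (by rw [← heq]; exact ht)
        refine ⟨y₁, hle hy₁, hy, ?_, nm_sq h2 ((E i).mul_mem (hle hc₁) (hle hy₁)) hsq⟩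
        exact ⟨y₁, hle hy₁, 0, (E i).zero_mem, by ring⟩
      · obtain hsq := iso_sq (hle hy₀) (hle hy₁) hy hu₀ hu₁ hNy hu ht
        refine ⟨c₁, hle hc₁, hc, nm_sq h2 ((E i).mul_mem (hle hy₁) (hle hc₁)) hsq, ?_⟩
        exact ⟨c₁, hle hc₁, 0, (E i).zero_mem, by ring⟩
    · refine ⟨R a y₀ y₁ u₀ u₁, ?_, ht, rep_to (hle hy₀) (hle hy₁) ⟨u₀, hu₀, u₁, hu₁, rfl⟩,
        rep_to (hle hc₀) (hle hc₁) ⟨v₀, hv₀, v₁, hv₁, heq.symm⟩⟩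
      unfold R
      have h2E : (2 : K) ∈ E i := by
        have := (E i).add_mem (E i).one_mem (E i).one_mem
        rwa [one_add_one_eq_two] at this
      exact (E i).add_mem ((E i).mul_mem (hle hy₁) ((E i).add_mem ((E i).pow_mem hu₀ 2)
        ((E i).mul_mem (hle ha) ((E i).pow_mem hu₁ 2))))
        ((E i).mul_mem ((E i).mul_mem ((E i).mul_mem h2E (hle hy₀)) hu₀) hu₁)
  choose t ht ht0 hty htc using key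
  obtain ⟨x, hx, hx0, hxw⟩ := hLG.sur t fun i => ⟨ht i, ht0 i⟩
  have hNyM : y₀ ^ 2 - a * y₁ ^ 2 ∈ M :=
    M.sub_mem (M.pow_mem hy₀ 2) (M.mul_mem ha (M.pow_mem hy₁ 2))
  have hNcM : c₀ ^ 2 - a * c₁ ^ 2 ∈ M :=
    M.sub_mem (M.pow_mem hc₀ 2) (M.mul_mem ha (M.pow_mem hc₁ 2))
  have g1 : Nm M (y₀ ^ 2 - a * y₁ ^ 2) (y₁ * x) := by
    refine hLG.loc _ hNyM _ (M.mul_mem hy₁ hx) hNy (mul_ne_zero hy hx0) fun i => ?_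
    obtain ⟨w, hw, hw0, hxw⟩ := hxw i
    rw [hxw, ← mul_assoc]
    exact nm_mul_sq hw (hty i)
  have g2 : Nm M (c₀ ^ 2 - a * c₁ ^ 2) (c₁ * x) := by
    refine hLG.loc _ hNcM _ (M.mul_mem hc₁ hx) hNc (mul_ne_zero hc hx0) fun i => ?_
    obtain ⟨w, hw, hw0, hxw⟩ := hxw i
    rw [hxw, ← mul_assoc]
    exact nm_mul_sq hw (htc i)
  obtain ⟨u₀, hu₀, u₁, hu₁, hu⟩ := rep_from hy₀ hy₁ hy g1
  obtain ⟨v₀, hv₀, v₁, hv₁, hv⟩ := rep_from hc₀ hc₁ hc g2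
  refine ⟨u₀, hu₀, u₁, hu₁, v₀, hv₀, v₁, hv₁, ?_, by rw [hu, hv]⟩
  rintro ⟨e1, e2, _, _⟩
  apply hx0
  rw [← hu, e1, e2]
  unfold R
  ring

end Pool.Agent.P8H20.FP
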