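import Pool.Agent.P8H47.FP.Stm
import Pool.Agent.P8H20.FP.Qa

/-!
Package QB of project FP.
-/

set_option autoImplicit false

namespace Pool.Agent.P8H20.FP

open Pool.Agent.P8H47.FP

variable {K : Type} [Field K]

/-- both coefficients in `E` -/
def PP {a : K} (E : Subfield K) (z : QuadraticAlgebra K a 0) : Prop := z.re ∈ E ∧ z.im ∈ E

/-- the constant `g` -/
def cst {a : K} (g : K) : QuadraticAlgebra K a 0 := ⟨g, 0⟩

/-- norms -/
def NQ {a : K} (E : Subfield K) (g : K) (z : QuadraticAlgebra K a 0) : Prop :=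
  ∃ u v : QuadraticAlgebra K a 0, PP E u ∧ PP E v ∧ z = u ^ 2 - cst g * v ^ 2

theorem PP_add {a : K} {E : Subfield K} {z w : QuadraticAlgebra K a 0} (hz : PP E z) (hw : PP E w) :
    PP E (z + w) := ⟨E.add_mem hz.1 hw.1, E.add_mem hz.2 hw.2⟩

theorem PP_mul {a : K} {E : Subfield K} (ha : a ∈ E) {z w : QuadraticAlgebra K a 0} (hz : PP E z)
    (hw : PP E w) : PP E (z * w) := by
  constructor
  · rw [QuadraticAlgebra.re_mul]
    exact E.add_mem (E.mul_mem hz.1 hw.1) (E.mul_mem (E.mul_mem ha hz.2) hw.2)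
  · rw [QuadraticAlgebra.im_mul]
    exact E.add_mem (E.add_mem (E.mul_mem hz.1 hw.2) (E.mul_mem hz.2 hw.1))
      (E.mul_mem (E.mul_mem E.zero_mem hz.2) hw.2)

theorem PP_cst {a : K} {E : Subfield K} {g : K} (hg : g ∈ E) : PP E (cst g : QuadraticAlgebra K a 0) :=
  ⟨hg, E.zero_mem⟩

theorem PP_mono {a : K} {E E' : Subfield K} (h : E ≤ E') {z : QuadraticAlgebra K a 0} (hz : PP E z) :
    PP E' z := ⟨h hz.1, h hz.2⟩

theorem NQ_mono {a : K} {E E' : Subfield K} (h : E ≤ E') {g : K} {z : QuadraticAlgebra K a 0}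
    (hz : NQ E g z) : NQ E' g z := by
  obtain ⟨u, v, hu, hv, e⟩ := hz
  exact ⟨u, v, PP_mono h hu, PP_mono h hv, e⟩

theorem NQ_mul {a : K} {E : Subfield K} (ha : a ∈ E) {g : K} (hg : g ∈ E) {z w : QuadraticAlgebra K a 0}
    (hz : NQ E g z) (hw : NQ E g w) : NQ E g (z * w) := by
  obtain ⟨u, v, hu, hv, rfl⟩ := hz
  obtain ⟨u', v', hu', hv', rfl⟩ := hw
  exact ⟨u * u' + cst g * (v * v'), u * v' + v * u',
    PP_add (PP_mul ha hu hu') (PP_mul ha (PP_cst hg) (PP_mul ha hv hv')),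
    PP_add (PP_mul ha hu hv') (PP_mul ha hv hu'), by ring⟩

theorem NQ_inv {a : K} {E : Subfield K} (ha : a ∈ E) {g : K} {z y : QuadraticAlgebra K a 0}
    (hy : PP E y) (hzy : z * y = 1) (hz : NQ E g z) : NQ E g y := by
  obtain ⟨u, v, hu, hv, h⟩ := hz
  refine ⟨u * y, v * y, PP_mul ha hu hy, PP_mul ha hv hy, ?_⟩
  calc y = (z * y) * y := by rw [hzy, one_mul]
    _ = (u * y) ^ 2 - cst g * (v * y) ^ 2 := by rw [h]; ring

theorem cst_mul {a : K} (g h : K) : (cst (g * h) : QuadraticAlgebra K a 0) = cst g * cst h := by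
  ext
  · rw [QuadraticAlgebra.re_mul]
    simp [cst]
  · rw [QuadraticAlgebra.im_mul]
    simp [cst]

theorem NQ_iff {a : K} {E : Subfield K} {g x₀ x₁ : K} :
    NQ E g (⟨x₀, x₁⟩ : QuadraticAlgebra K a 0) ↔ Nr E a g x₀ x₁ := by
  constructor
  · rintro ⟨u, v, hu, hv, h⟩
    refine ⟨u.re, hu.1, u.im, hu.2, v.re, hv.1, v.im, hv.2, ?_, ?_⟩
    · have := congrArg QuadraticAlgebra.re h
      simp only [QuadraticAlgebra.re_sub, pow_two, QuadraticAlgebra.re_mul, QuadraticAlgebra.im_mul, cst] at this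
      rw [this]
      ring
    · have := congrArg QuadraticAlgebra.im h
      simp only [QuadraticAlgebra.im_sub, pow_two, QuadraticAlgebra.re_mul, QuadraticAlgebra.im_mul, cst] at this
      rw [this]
      ring
  · rintro ⟨u₀, hu₀, u₁, hu₁, v₀, hv₀, v₁, hv₁, h0, h1⟩
    refine ⟨⟨u₀, u₁⟩, ⟨v₀, v₁⟩, ⟨hu₀, hu₁⟩, ⟨hv₀, hv₁⟩, ?_⟩
    ext
    · simp only [QuadraticAlgebra.re_sub, pow_two, QuadraticAlgebra.re_mul, QuadraticAlgebra.im_mul, cst]
      rw [h0]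
      ring
    · simp only [QuadraticAlgebra.im_sub, pow_two, QuadraticAlgebra.re_mul, QuadraticAlgebra.im_mul, cst]
      rw [h1]
      ring

/-- from norms of `E` -/
theorem NQ_of_Nm {a : K} {E : Subfield K} {g z : K} (h : Nm E g z) :
    NQ E g (cst z : QuadraticAlgebra K a 0) := by
  obtain ⟨u, hu, v, hv, rfl⟩ := h
  refine ⟨cst u, cst v, PP_cst hu, PP_cst hv, ?_⟩
  ext
  · simp only [QuadraticAlgebra.re_sub, pow_two, QuadraticAlgebra.re_mul, QuadraticAlgebra.im_mul, cst]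
    ring
  · simp only [QuadraticAlgebra.im_sub, pow_two, QuadraticAlgebra.re_mul, QuadraticAlgebra.im_mul, cst]
    ring

theorem NQ_of_Nm' {a : K} {E : Subfield K} {g z : K} (h : Nm E (a * g) z) :
    NQ E g (cst z : QuadraticAlgebra K a 0) := by
  obtain ⟨u, hu, v, hv, rfl⟩ := h
  refine ⟨cst u, ⟨0, v⟩, PP_cst hu, ⟨E.zero_mem, hv⟩, ?_⟩
  ext
  · simp only [QuadraticAlgebra.re_sub, pow_two, QuadraticAlgebra.re_mul, QuadraticAlgebra.im_mul, cst]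
    ring
  · simp only [QuadraticAlgebra.im_sub, pow_two, QuadraticAlgebra.re_mul, QuadraticAlgebra.im_mul, cst]
    ring

/-- step (3): factorization of constants -/
theorem factor {a : K} {E : Subfield K} {g h : K} (ha : a ∈ E) (hg : g ∈ E) (hg0 : g ≠ 0)
    (h2 : (2 : K) ≠ 0) (hh : Nr E a g h 0) :
    ∃ p ∈ E, ∃ q ∈ E, h = p * q ∧ Nm E g p ∧ Nm E (a * g) q := by
  obtain ⟨u₀, hu₀, u₁, hu₁, v₀, hv₀, v₁, hv₁, h0, h1⟩ := hh
  have h1' : u₀ * u₁ = g * v₀ * v₁ := by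
    have : 2 * (u₀ * u₁ - g * v₀ * v₁) = 0 := by linear_combination -h1
    rcases mul_eq_zero.1 this with h3 | h3
    · exact absurd h3 h2
    · linear_combination h3
  by_cases hu : u₀ = 0
  · have hvv : v₀ = 0 ∨ v₁ = 0 := by
      have : g * (v₀ * v₁) = 0 := by rw [← mul_assoc, ← h1', hu, zero_mul]
      rcases mul_eq_zero.1 this with h3 | h3
      · exact absurd h3 hg0
      · exact mul_eq_zero.1 h3
    rcases hvv with hv | hv
    · refine ⟨-g * (u₁ ^ 2 - g * v₁ ^ 2), ?_, -(a * g) / g ^ 2, ?_, ?_, ?_, ?_⟩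
      · exact E.mul_mem (E.neg_mem hg) (E.sub_mem (E.pow_mem hu₁ 2) (E.mul_mem hg (E.pow_mem hv₁ 2)))
      · exact E.div_mem (E.neg_mem (E.mul_mem ha hg)) (E.pow_mem hg 2)
      · rw [h0, hu, hv]
        field_simp
        ring
      · exact ⟨g * v₁, E.mul_mem hg hv₁, u₁, hu₁, by ring⟩
      · refine ⟨0, E.zero_mem, 1 / g, E.div_mem E.one_mem hg, ?_⟩
        field_simp
        ring
    · refine ⟨-g, E.neg_mem hg, v₀ ^ 2 - a * g * (u₁ / g) ^ 2, ?_, ?_, ?_, ?_⟩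
      · exact E.sub_mem (E.pow_mem hv₀ 2) (E.mul_mem (E.mul_mem ha hg) (E.pow_mem (E.div_mem hu₁ hg) 2))
      · rw [h0, hu, hv]
        field_simp
        ring
      · exact ⟨0, E.zero_mem, 1, E.one_mem, by ring⟩
      · exact ⟨v₀, hv₀, u₁ / g, E.div_mem hu₁ hg, rfl⟩
  · refine ⟨u₀ ^ 2 - g * v₀ ^ 2, ?_, 1 - a * g * (v₁ / u₀) ^ 2, ?_, ?_, ?_, ?_⟩
    · exact E.sub_mem (E.pow_mem hu₀ 2) (E.mul_mem hg (E.pow_mem hv₀ 2))
    · exact E.sub_mem E.one_mem (E.mul_mem (E.mul_mem ha hg) (E.pow_mem (E.div_mem hv₁ hu₀) 2))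
    · have hu1 : u₁ = g * v₀ * v₁ / u₀ := by
        rw [eq_div_iff hu]
        linear_combination h1'
      rw [h0, hu1]
      field_simp
      ring
    · exact ⟨u₀, hu₀, v₀, hv₀, rfl⟩
    · exact ⟨1, E.one_mem, v₁ / u₀, E.div_mem hv₁ hu₀, by ring⟩

theorem qb : S_QB := by
  intro K _ h2 ι M E hLG a ha ha0 g hg hg0 x₀ hx₀ x₁ hx₁ hN hloc
  have h2M : (2 : K) ∈ M := by
    have := M.add_mem M.one_mem M.one_mem
    rwa [one_add_one_eq_two] at this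
  have h2E : ∀ i, (2 : K) ∈ E i := fun i => hLG.le i h2M
  -- step (1)
  have hNM : x₀ ^ 2 - a * x₁ ^ 2 ∈ M := M.sub_mem (M.pow_mem hx₀ 2) (M.mul_mem ha (M.pow_mem hx₁ 2))
  have s1 : Nm M g (x₀ ^ 2 - a * x₁ ^ 2) := by
    refine hLG.loc g hg _ hNM hg0 hN fun i => ?_
    have hle := hLG.le i
    obtain ⟨u₀, hu₀, u₁, hu₁, v₀, hv₀, v₁, hv₁, h0, h1⟩ := hloc i
    refine ⟨u₀ ^ 2 - a * u₁ ^ 2 + g * (v₀ ^ 2 - a * v₁ ^ 2), ?_, 2 * u₀ * v₀ - 2 * a * u₁ * v₁, ?_, ?_⟩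
    · exact (E i).add_mem ((E i).sub_mem ((E i).pow_mem hu₀ 2) ((E i).mul_mem (hle ha) ((E i).pow_mem hu₁ 2)))
        ((E i).mul_mem (hle hg) ((E i).sub_mem ((E i).pow_mem hv₀ 2)
          ((E i).mul_mem (hle ha) ((E i).pow_mem hv₁ 2))))
    · exact (E i).sub_mem ((E i).mul_mem ((E i).mul_mem (h2E i) hu₀) hv₀)
        ((E i).mul_mem ((E i).mul_mem ((E i).mul_mem (h2E i) (hle ha)) hu₁) hv₁)
    · rw [h0, h1]
      ring
  obtain ⟨A, hA, B, hB, hAB⟩ := s1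
  by_cases hcase : A = 0 ∧ x₀ = 0
  · -- the degenerate case
    obtain ⟨hA0, hx0⟩ := hcase
    have hx10 : x₁ ≠ 0 := by
      rintro rfl
      apply hN
      rw [hx0]
      ring
    have hB0 : B ≠ 0 := by
      rintro rfl
      apply hN
      rw [hAB, hA0]
      ring
    have hgB : g * B ^ 2 = a * x₁ ^ 2 := by
      rw [hA0, hx0] at hAB
      linear_combination hAB
    have hg2 : g = a * x₁ ^ 2 / B ^ 2 := by
      rw [eq_div_iff (pow_ne_zero 2 hB0)]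
      exact hgB
    refine ⟨1 / 2, M.div_mem M.one_mem h2M, x₁ / 2, M.div_mem hx₁ h2M, B / 2, M.div_mem hB h2M,
      -(B / (2 * x₁ * a)), M.neg_mem (M.div_mem hB (M.mul_mem (M.mul_mem h2M hx₁) ha)), ?_, ?_⟩
    · rw [hx0, hg2]
      field_simp
      ring
    · rw [hg2]
      field_simp
      ring
  -- choose the sign of `A`
  obtain ⟨A', hA', hA2, hAx⟩ : ∃ A' ∈ M, A' ^ 2 = A ^ 2 ∧ x₀ + A' ≠ 0 := by
    by_cases h : x₀ + A = 0
    · refine ⟨-A, M.neg_mem hA, by ring, fun h' => hcase ?_⟩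
      have e1 : 2 * x₀ = 0 := by linear_combination h + h'
      have e2 : 2 * A = 0 := by linear_combination h - h'
      exact ⟨(mul_eq_zero.1 e2).resolve_left h2, (mul_eq_zero.1 e1).resolve_left h2⟩
    · exact ⟨A, hA, rfl, h⟩
  set c : K := 2 * (x₀ + A') with hc
  have hc0 : c ≠ 0 := mul_ne_zero h2 hAx
  have hcM : c ∈ M := M.mul_mem h2M (M.add_mem hx₀ hA')
  set X : QuadraticAlgebra K a 0 := ⟨x₀, x₁⟩ with hX
  set m : QuadraticAlgebra K a 0 := cst c * X with hm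
  have hmN : NQ M g m := by
    refine ⟨⟨x₀ + A', x₁⟩, cst B, ⟨M.add_mem hx₀ hA', hx₁⟩, PP_cst hB, ?_⟩
    rw [hm, hX]
    ext
    · simp only [QuadraticAlgebra.re_sub, pow_two, QuadraticAlgebra.re_mul, QuadraticAlgebra.im_mul, cst]
      rw [hc]
      linear_combination hAB - hA2
    · simp only [QuadraticAlgebra.im_sub, pow_two, QuadraticAlgebra.re_mul, QuadraticAlgebra.im_mul, cst]
      rw [hc]
      ring
  set Y : QuadraticAlgebra K a 0 := ⟨x₀ / (x₀ ^ 2 - a * x₁ ^ 2), -x₁ / (x₀ ^ 2 - a * x₁ ^ 2)⟩ with hY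
  have hXY : X * Y = 1 := by
    rw [hX, hY]
    ext
    · simp only [QuadraticAlgebra.re_mul]
      show x₀ * (x₀ / (x₀ ^ 2 - a * x₁ ^ 2)) + a * x₁ * (-x₁ / (x₀ ^ 2 - a * x₁ ^ 2)) = 1
      field_simp
      ring
    · simp only [QuadraticAlgebra.im_mul]
      show x₀ * (-x₁ / (x₀ ^ 2 - a * x₁ ^ 2)) + x₁ * (x₀ / (x₀ ^ 2 - a * x₁ ^ 2)) +
        0 * x₁ * (-x₁ / (x₀ ^ 2 - a * x₁ ^ 2)) = 0
      field_simp
      ring
  have hYP : PP M Y := ⟨M.div_mem hx₀ hNM, M.div_mem (M.neg_mem hx₁) hNM⟩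
  -- `h` is a norm locally
  have hloch : ∀ i, Nr (E i) a g (1 / c) 0 := by
    intro i
    have hle := hLG.le i
    have n1 : NQ (E i) g X := NQ_iff.2 (hloc i)
    have n2 : NQ (E i) g Y := NQ_inv (hle ha) (PP_mono hle hYP) hXY n1
    have n3 : NQ (E i) g (m * Y) := NQ_mul (hle ha) (hle hg) (NQ_mono hle hmN) n2
    have e1 : m * Y = cst c := by rw [hm, mul_assoc, hXY, mul_one]
    rw [e1] at n3
    have e2 : (cst c : QuadraticAlgebra K a 0) * cst (1 / c) = 1 := by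
      rw [← cst_mul, mul_one_div_cancel hc0]
      rfl
    have n4 : NQ (E i) g (cst (1 / c) : QuadraticAlgebra K a 0) :=
      NQ_inv (hle ha) (PP_cst ((E i).div_mem (E i).one_mem (hle hcM))) e2 n3
    exact NQ_iff.1 n4
  have hfac : ∀ i, ∃ p ∈ E i, ∃ q ∈ E i, 1 / c = p * q ∧ Nm (E i) g p ∧ Nm (E i) (a * g) q :=
    fun i => factor (hLG.le i ha) (hLG.le i hg) hg0 h2 (hloch i)
  choose p hp q hq hpq hNp hNq using hfac
  have h1c : (1 : K) / c ≠ 0 := one_div_ne_zero hc0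
  have hp0 : ∀ i, p i ≠ 0 := fun i h => h1c (by rw [hpq i, h, zero_mul])
  obtain ⟨p', hp', hp'0, hpw⟩ := hLG.sur p fun i => ⟨hp i, hp0 i⟩
  have hq'M : 1 / c / p' ∈ M := M.div_mem (M.div_mem M.one_mem hcM) hp'
  have hq'0 : 1 / c / p' ≠ 0 := div_ne_zero h1c hp'0
  have g1 : Nm M g p' := by
    refine hLG.loc g hg p' hp' hg0 hp'0 fun i => ?_
    obtain ⟨w, hw, _, hwe⟩ := hpw i
    rw [hwe]
    exact nm_mul_sq hw (hNp i)
  have g2 : Nm M (a * g) (1 / c / p') := by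
    refine hLG.loc (a * g) (M.mul_mem ha hg) _ hq'M (mul_ne_zero ha0 hg0) hq'0 fun i => ?_
    obtain ⟨w, hw, hw0, hwe⟩ := hpw i
    have e1 : 1 / c / p' = q i * (1 / w) ^ 2 := by
      rw [hwe, hpq i]
      have := hp0 i
      field_simp
    rw [e1]
    exact nm_mul_sq ((E i).div_mem (E i).one_mem hw) (hNq i)
  have n1 : NQ M g (cst (1 / c) : QuadraticAlgebra K a 0) := by
    have e1 : (cst (1 / c) : QuadraticAlgebra K a 0) = cst p' * cst (1 / c / p') := by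
      rw [← cst_mul, mul_div_cancel₀ _ hp'0]
    rw [e1]
    exact NQ_mul ha hg (NQ_of_Nm g1) (NQ_of_Nm' g2)
  have n2 : NQ M g (cst (1 / c) * m) := NQ_mul ha hg n1 hmN
  have e3 : cst (1 / c) * m = X := by
    rw [hm, ← mul_assoc, ← cst_mul, one_div_mul_cancel hc0]
    show (1 : QuadraticAlgebra K a 0) * X = X
    rw [one_mul]
  rw [e3] at n2
  exact NQ_iff.1 n2

end Pool.Agent.P8H20.FP
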